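import Pool.Agent.Y804.FA.Est
import Pool.Agent.Y293.FA.Stm3

/-!
# Project FA2 (helper293): the estimate for one small set (helper971)
-/

set_option autoImplicit false

namespace Pool.Agent.Y971.FA

open MeasureTheory Set Filter Topology Pool.Agent.Y293.FA
open scoped ENNReal ComplexConjugate

/-- the conditional measure is a probability measure -/
theorem cm_prob (μ : Measure ℂ) [IsProbabilityMeasure μ] {Q : Set ℂ} (hQ0 : μ Q ≠ 0) :
    IsProbabilityMeasure (cm μ Q) := by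
  refine ⟨?_⟩
  unfold cm
  rw [Measure.smul_apply, Measure.restrict_apply_univ, smul_eq_mul,
    ENNReal.inv_mul_cancel hQ0 (measure_ne_top _ _)]

theorem cm_ae (μ : Measure ℂ) {Q : Set ℂ} (hQ : MeasurableSet Q) : ∀ᵐ z ∂(cm μ Q), z ∈ Q := by
  unfold cm
  exact Measure.ae_smul_measure (ae_restrict_mem hQ) _

theorem meas_rs (y : ℂ) (l : ℝ) : Measurable fun z : ℂ => (z - y) / (l : ℂ) := by fun_prop

theorem rs_prob (m : Measure ℂ) [IsProbabilityMeasure m] (y : ℂ) (l : ℝ) :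
    IsProbabilityMeasure (rs y l m) :=
  Measure.isProbabilityMeasure_map (meas_rs y l).aemeasurable

theorem rs_ae {μ : Measure ℂ} {Q : Set ℂ} (hQ : MeasurableSet Q) {y : ℂ} {l : ℝ} (hl : 0 < l)
    (h : ∀ z ∈ Q, ‖z - y‖ ≤ 2 * l) : ∀ᵐ z ∂(rs y l (cm μ Q)), ‖z‖ ≤ 2 := by
  unfold rs
  rw [ae_map_iff (meas_rs y l).aemeasurable (measurableSet_le (by fun_prop) (by fun_prop))]
  filter_upwards [cm_ae μ hQ] with z hz
  rw [norm_div, Complex.norm_real, Real.norm_of_nonneg hl.le, div_le_iff₀ hl]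
  exact h z hz

theorem map_dist (m : Measure ℂ) (x y : ℂ) {l : ℝ} (hl : 0 < l) :
    m.map (dist x) = (rs y l m).map fun z => ‖(y - x) + (l : ℂ) * z‖ := by
  unfold rs
  rw [Measure.map_map (by fun_prop) (meas_rs y l)]
  congr 1
  funext z
  simp only [Function.comp_apply]
  have hlc : (l : ℂ) ≠ 0 := by exact_mod_cast hl.ne'
  have : (y - x) + (l : ℂ) * ((z - y) / (l : ℂ)) = z - x := by field_simp; ring
  rw [this, dist_comm, dist_eq_norm]

theorem measurable_tube (μ : Measure ℂ) [IsFiniteMeasure μ] (w : ℝ) (y : ℂ) :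
    Measurable fun x : ℂ => μ (tube w x y) := by
  have hT : MeasurableSet {p : ℂ × ℂ |
      |((p.2 - p.1) * (starRingEnd ℂ) (y - p.1)).im| ≤ w * ‖y - p.1‖} := by
    have h1 : Continuous fun p : ℂ × ℂ => |((p.2 - p.1) * (starRingEnd ℂ) (y - p.1)).im| := by
      fun_prop
    have h2 : Continuous fun p : ℂ × ℂ => w * ‖y - p.1‖ := by fun_prop
    exact measurableSet_le h1.measurable h2.measurable
  have h3 := measurable_measure_prodMk_left (ν := μ) hT
  exact h3

/-- the unit vector from the pin to `y` -/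
noncomputable def ee (y x : ℂ) : ℂ := if x = y then 1 else (y - x) / (‖y - x‖ : ℂ)

theorem measurable_ee (y : ℂ) : Measurable (ee y) := by
  unfold ee
  refine Measurable.ite (measurableSet_eq) measurable_const ?_
  fun_prop

theorem norm_ee (y x : ℂ) : ‖ee y x‖ = 1 := by
  unfold ee
  split_ifs with h
  · exact norm_one
  · have : y - x ≠ 0 := sub_ne_zero.mpr (Ne.symm h)
    rw [norm_div, Complex.norm_real, norm_norm, div_self (norm_pos_iff.mpr this).ne']

theorem ee_mul {y x : ℂ} (h : x ≠ y) : y - x = (‖y - x‖ : ℂ) * ee y x := by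
  have h1 : y - x ≠ 0 := sub_ne_zero.mpr (Ne.symm h)
  have h2 : (‖y - x‖ : ℂ) ≠ 0 := by
    have := (norm_pos_iff.mpr h1).ne'
    exact_mod_cast this
  rw [ee, if_neg h]
  field_simp

theorem mem_tube_of {y x x' : ℂ} {R l : ℝ} (hl : 0 < l) (hx : x ≠ y) (hx' : x' ≠ y)
    (h1 : ‖y - x'‖ ≤ 2 * R) (h2 : ‖ee y x' - ee y x‖ ≤ 2 * l) : x' ∈ tube (4 * R * l) x y := by
  show |((x' - x) * (starRingEnd ℂ) (y - x)).im| ≤ 4 * R * l * ‖y - x‖
  have e1 : (x' - x) * (starRingEnd ℂ) (y - x) =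
      (y - x) * (starRingEnd ℂ) (y - x) - (y - x') * (starRingEnd ℂ) (y - x) := by ring
  have e2 : ((y - x) * (starRingEnd ℂ) (y - x)).im = 0 := by
    rw [Complex.mul_conj, Complex.ofReal_im]
  have e3 : ((ee y x) * (starRingEnd ℂ) (ee y x)).im = 0 := by
    rw [Complex.mul_conj, Complex.ofReal_im]
  have e4 : (y - x') * (starRingEnd ℂ) (y - x) =
      ((‖y - x'‖ * ‖y - x‖ : ℝ) : ℂ) * ((ee y x' - ee y x) * (starRingEnd ℂ) (ee y x)) +
      ((‖y - x'‖ * ‖y - x‖ : ℝ) : ℂ) * (ee y x * (starRingEnd ℂ) (ee y x)) := by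
    conv_lhs => rw [ee_mul hx, ee_mul hx']
    rw [map_mul, Complex.conj_ofReal]
    push_cast
    ring
  rw [e1, Complex.sub_im, e2, zero_sub, abs_neg, e4, Complex.add_im, Complex.im_ofReal_mul,
    Complex.im_ofReal_mul, e3, mul_zero, add_zero, abs_mul,
    abs_of_nonneg (by positivity : 0 ≤ ‖y - x'‖ * ‖y - x‖)]
  have h3 : |((ee y x' - ee y x) * (starRingEnd ℂ) (ee y x)).im| ≤ 2 * l := by
    refine (Complex.abs_im_le_norm _).trans ?_
    rw [norm_mul, Complex.norm_conj, norm_ee, mul_one]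
    exact h2
  calc ‖y - x'‖ * ‖y - x‖ * |((ee y x' - ee y x) * (starRingEnd ℂ) (ee y x)).im| ≤
      ‖y - x'‖ * ‖y - x‖ * (2 * l) := mul_le_mul_of_nonneg_left h3 (by positivity)
    _ = ‖y - x'‖ * (2 * l * ‖y - x‖) := by ring
    _ ≤ 2 * R * (2 * l * ‖y - x‖) := mul_le_mul_of_nonneg_right h1 (by positivity)
    _ = _ := by ring

/-- **FA2-CUBE.** -/
theorem cube : S_PERT → S_SCALE → S_AVGC → S_LIN → S_MEAS → S_CUBE := by
  intro hP hS hA hL _ R κ hR hκ
  refine ⟨9 + 144 * Real.pi + 192 / κ, by positivity, ?_⟩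
  intro μ _ hμR Q hQ hQ0 y l hy hl hl1 hQl a b V L ha hab hV hL1 hθ
  have hcm := cm_prob μ hQ0
  obtain ⟨ν, hν⟩ : ∃ ν, ν = rs y l (cm μ Q) := ⟨_, rfl⟩
  have hνp : IsProbabilityMeasure ν := hν ▸ rs_prob (cm μ Q) y l
  have hν2 : ∀ᵐ z ∂ν, ‖z‖ ≤ 2 := hν ▸ rs_ae hQ hl hQl
  obtain ⟨S, hSd⟩ : ∃ S, S = {x | κ ≤ ‖y - x‖ ∧ μ (tube (4 * R * l) x y) ≤
    ENNReal.ofReal (L * l)} := ⟨_, rfl⟩
  have hSm : MeasurableSet S := by
    rw [hSd]
    have h1 : Measurable fun x : ℂ => ‖y - x‖ := by fun_prop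
    exact (measurableSet_le measurable_const h1).inter
      (measurableSet_le (measurable_tube μ _ y) measurable_const)
  have hne : ∀ x ∈ S, x ≠ y := by
    intro x hx hxy
    rw [hSd] at hx
    have := hx.1
    rw [hxy, sub_self, norm_zero] at this
    linarith
  rw [← hSd]
  rw [← hν] at hθ
  have hlc : (l : ℂ) ≠ 0 := by exact_mod_cast hl.ne'
  have hnl : ‖(l : ℂ)‖ = l := by rw [Complex.norm_real, Real.norm_of_nonneg hl.le]
  -- the estimate for one pin
  have key : ∀ x ∈ S, dd a b ((cm μ Q).map (dist x)) ≤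
      3 * l⁻¹ * dd (a / l) (b / l) (ν.map (pe (ee y x))) + 192 * l ^ 2 / (κ * a ^ 2) := by
    intro x hx
    have hκx : κ ≤ ‖y - x‖ := by rw [hSd] at hx; exact hx.1
    have h1 := Pool.Agent.Y804.FA.one_cyl hP hS hL (R := 2) (κ := 2 * κ) (by norm_num)
      (by linarith) hν2 hlc (ui := y - x) (by linarith) ha hab
    rw [hnl] at h1
    have h2 : (starRingEnd ℂ) (l : ℂ) / (l : ℂ) * ((y - x) / (‖y - x‖ : ℂ)) = ee y x := by
      rw [Complex.conj_ofReal, div_self hlc, one_mul, ee, if_neg (hne x hx)]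
    rw [h2] at h1
    rw [map_dist (cm μ Q) x y hl, ← hν]
    refine h1.trans (le_of_eq ?_)
    field_simp
    ring
  -- the average
  have havg := hA ν 2 (by norm_num) hν2 (μ.restrict S) (ee y) (measurable_ee y) (norm_ee y) S
    (by rw [Measure.restrict_apply hSm.compl, compl_inter_self, measure_empty])
    l L (a / l) (b / l) V hl hl1 (by linarith) (by positivity)
    (div_le_div_of_nonneg_right hab hl.le) hV (by
      intro x hx
      have h1 : (μ.restrict S) {x' | ‖ee y x' - ee y x‖ ≤ 2 * l} ≤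
          (μ.restrict S) (tube (4 * R * l) x y) := by
        refine measure_mono_ae ?_
        filter_upwards [ae_restrict_mem hSm, ae_restrict_of_ae hμR] with x' h3 h4 h5
        refine mem_tube_of hl (hne x hx) (hne x' h3) ?_ h5
        exact (norm_sub_le _ _).trans (by linarith)
      refine h1.trans ((Measure.restrict_le_self _).trans ?_)
      rw [hSd] at hx
      exact hx.2) hθ
  calc ∫⁻ x in S, ENNReal.ofReal (dd a b ((cm μ Q).map (dist x))) ∂μ ≤
      ∫⁻ x in S, (ENNReal.ofReal (3 * l⁻¹) * ENNReal.ofReal (dd (a / l) (b / l)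
        (ν.map (pe (ee y x)))) + ENNReal.ofReal (192 * l ^ 2 / (κ * a ^ 2))) ∂μ := by
        refine setLIntegral_mono' hSm fun x hx => ?_
        rw [← ENNReal.ofReal_mul (by positivity), ← ENNReal.ofReal_add
          (mul_nonneg (by positivity) (dd_nonneg _ _ _)) (by positivity)]
        exact ENNReal.ofReal_le_ofReal (key x hx)
    _ = ENNReal.ofReal (3 * l⁻¹) * ∫⁻ x in S, ENNReal.ofReal (dd (a / l) (b / l)
        (ν.map (pe (ee y x)))) ∂μ + ENNReal.ofReal (192 * l ^ 2 / (κ * a ^ 2)) * μ S := by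
        rw [lintegral_add_right _ measurable_const, lintegral_const_mul' _ _ ENNReal.ofReal_ne_top,
          setLIntegral_const]
    _ ≤ ENNReal.ofReal (3 * l⁻¹) * ENNReal.ofReal (L * (3 * V + 24 * Real.pi * 2 * l /
        (a / l) ^ 2)) + ENNReal.ofReal (192 * l ^ 2 / (κ * a ^ 2)) * 1 :=
        add_le_add (mul_le_mul' le_rfl havg) (mul_le_mul' le_rfl prob_le_one)
    _ = ENNReal.ofReal (3 * l⁻¹ * (L * (3 * V + 24 * Real.pi * 2 * l /
        (a / l) ^ 2)) + 192 * l ^ 2 / (κ * a ^ 2)) := by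
        rw [mul_one, ← ENNReal.ofReal_mul (by positivity), ← ENNReal.ofReal_add (by positivity)
          (by positivity)]
    _ ≤ _ := by
        refine ENNReal.ofReal_le_ofReal ?_
        have e1 : 3 * l⁻¹ * (L * (3 * V + 24 * Real.pi * 2 * l / (a / l) ^ 2)) =
            9 * (L * (V / l)) + 144 * Real.pi * (L * (l ^ 2 / a ^ 2)) := by
          field_simp
          ring
        have e2 : 192 * l ^ 2 / (κ * a ^ 2) = 192 / κ * (l ^ 2 / a ^ 2) := by
          field_simp
        rw [e1, e2]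
        have p1 : 0 ≤ L * (V / l) := by positivity
        have p2 : 0 ≤ L * (l ^ 2 / a ^ 2) := by positivity
        have p3 : 192 / κ * (l ^ 2 / a ^ 2) ≤ 192 / κ * (L * (l ^ 2 / a ^ 2)) := by
          refine mul_le_mul_of_nonneg_left ?_ (by positivity)
          exact le_mul_of_one_le_left (by positivity) hL1
        have p4 : 0 ≤ 144 * Real.pi * (L * (V / l)) := by positivity
        have p5 : 0 ≤ 192 / κ * (L * (V / l)) := by positivity
        have e3 : (9 + 144 * Real.pi + 192 / κ) * L * (V / l + l ^ 2 / a ^ 2) =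
            9 * (L * (V / l)) + 9 * (L * (l ^ 2 / a ^ 2)) + 144 * Real.pi * (L * (V / l)) +
            144 * Real.pi * (L * (l ^ 2 / a ^ 2)) + 192 / κ * (L * (V / l)) +
            192 / κ * (L * (l ^ 2 / a ^ 2)) := by ring
        rw [e3]
        linarith

end Pool.Agent.Y971.FA
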